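import Pool.Agent.Lib.MP_e15572_ag.Primary

/-!
Mixed test ideals of the plane curves `x^p + y^(p+1)` and `x^(p+1) + y^p`.
-/

set_option autoImplicit false

namespace Pool.Agent.Lib.MP_e15572_ag

open MvPolynomial

variable {k : Type} [Field k] {p : ℕ}

theorem coeff_MI {S : ℕ → ℕ → Prop} {F : MvPolynomial (Fin 2) k} (h : F ∈ MI k S)
    {w : Fin 2 →₀ ℕ} (hw : coeff w F ≠ 0) : ∃ a ≤ w 0, ∃ b ≤ w 1, S a b := by
  have h1 := MI_le (I := Ideal.span ((fun s => monomial s (1 : k)) ''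
    {w : Fin 2 →₀ ℕ | S (w 0) (w 1)})) (fun a b hab => Ideal.subset_span
      ⟨Finsupp.single 0 a + Finsupp.single 1 b, by simpa using hab, (mono_eq a b).symm⟩) h
  obtain ⟨v, h2, h3⟩ := mem_ideal_span_monomial_image.1 h1 w (mem_support_iff.2 hw)
  exact ⟨v 0, h3 0, v 1, h3 1, h2⟩

/-- The form of lowest degree is the monomial `x^u y^v`. -/
def Lead (F : MvPolynomial (Fin 2) k) (u v : ℕ) : Prop :=
  F - X 0 ^ u * X 1 ^ v ∈ MI k fun a b => u + v < a + b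

theorem Lead.mul {F G : MvPolynomial (Fin 2) k} {u v u' v' : ℕ} (h : Lead F u v)
    (h' : Lead G u' v') : Lead (F * G) (u + u') (v + v') := by
  have e : F * G - X 0 ^ (u + u') * X 1 ^ (v + v') = (F - X 0 ^ u * X 1 ^ v) *
      (G - X 0 ^ u' * X 1 ^ v') + (F - X 0 ^ u * X 1 ^ v) * (X 0 ^ u' * X 1 ^ v') +
      X 0 ^ u * X 1 ^ v * (G - X 0 ^ u' * X 1 ^ v') := by ring
  rw [Lead, e]
  exact add_mem (add_mem (MI_mul (by omega) (Ideal.mul_mem_mul h h'))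
    (MI_mul (T := fun a b => u' + v' ≤ a + b) (by omega) (Ideal.mul_mem_mul h (MI_mem le_rfl))))
    (MI_mul (S := fun a b => u + v ≤ a + b) (by omega) (Ideal.mul_mem_mul (MI_mem le_rfl) h'))

theorem Lead.pow {F : MvPolynomial (Fin 2) k} {u v : ℕ} (h : Lead F u v) (n : ℕ) :
    Lead (F ^ n) (u * n) (v * n) := by
  induction n with
  | zero => simp [Lead]
  | succ n ih => exact pow_succ F n ▸ ih.mul h

theorem frob_mul (I J : Ideal (MvPolynomial (Fin 2) k)) (q : ℕ) :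
    frobPower I q * frobPower J q ≤ frobPower (I * J) q := by
  rw [frobPower, frobPower, Ideal.span_mul_span', Ideal.span_le]
  rintro _ ⟨_, ⟨f, hf, rfl⟩, _, ⟨g, hg, rfl⟩, rfl⟩
  exact Ideal.subset_span ⟨f * g, Ideal.mul_mem_mul hf hg, mul_pow _ _ _⟩

/-- The curve `x_i^p + x_j^(p+1)`. -/
noncomputable def cu (k : Type) [Field k] (p : ℕ) (i j : Fin 2) : MvPolynomial (Fin 2) k :=
  X i ^ p + X j ^ (p + 1)

theorem X_mem (i : Fin 2) : X i ∈ MI k fun u v => 1 ≤ u + v := by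
  fin_cases i
  · simpa using MI_mem (k := k) (S := fun u v => 1 ≤ u + v) (u := 1) (v := 0) le_rfl
  · simpa using MI_mem (k := k) (S := fun u v => 1 ≤ u + v) (u := 0) (v := 1) le_rfl

variable [Fact p.Prime] [CharP k p] {t : EuclideanSpace ℝ (Fin 2)}

theorem cu_pow (i j : Fin 2) (e : ℕ) :
    cu k p i j ^ p ^ e = X i ^ p ^ (e + 1) + X j ^ p ^ (e + 1) * X j ^ p ^ e := by
  rw [cu, add_pow_char_pow]
  ring

theorem cu_frob (i j : Fin 2) {x : ℝ} (hx : 1 / (p : ℝ) ≤ x) (e : ℕ) :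
    cu k p i j ^ ⌈x * (p ^ e : ℕ)⌉₊ ∈ frobPower (MI k fun u v => 1 ≤ u + v) (p ^ e) := by
  have hp := (Fact.out : p.Prime).pos
  have h1 := ceil_lo (x := x) 1 p (p ^ e) (by
    rw [div_le_iff₀ (by positivity)] at hx
    push_cast
    linarith)
  have h2 : ∀ q i, X i ^ q ∈ frobPower (MI k fun u v => 1 ≤ u + v) q := fun q i =>
    Ideal.subset_span ⟨_, X_mem i, rfl⟩
  cases e with
  | zero =>
    refine Ideal.pow_mem_of_mem _ (add_mem (Ideal.pow_mem_of_mem _ ?_ _ hp)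
      (Ideal.pow_mem_of_mem _ ?_ _ p.succ_pos)) _ (Nat.pos_of_mul_pos_left (one_pos.trans_le h1))
    exacts [by simpa using h2 1 i, by simpa using h2 1 j]
  | succ e =>
    refine Ideal.pow_mem_of_pow_mem _ (m := p ^ e) ?_
      (Nat.le_of_mul_le_mul_left (by rw [← pow_succ']; simpa using h1) hp)
    rw [cu_pow]
    exact add_mem (h2 _ i) (Ideal.mul_mem_right _ _ (h2 _ j))

omit [Fact p.Prime] [CharP k p] in
theorem mem_cu {F : MvPolynomial (Fin 2) k} :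
    F ∈ mixedTestIdeal p ![Ideal.span {cu k p 0 1}, Ideal.span {cu k p 1 0}] t ↔ ∃ e : ℕ,
      F ∈ frobRoot (Ideal.span
        {cu k p 0 1 ^ ⌈t 0 * (p ^ e : ℕ)⌉₊ * cu k p 1 0 ^ ⌈t 1 * (p ^ e : ℕ)⌉₊}) (p ^ e) := by
  simp [mixedTestIdeal, Fin.prod_univ_two, Ideal.span_singleton_pow,
    Ideal.span_singleton_mul_span_singleton]

omit [Fact p.Prime] [CharP k p] in
theorem cu_le {J : Ideal (MvPolynomial (Fin 2) k)} (h : ∀ e,
    cu k p 0 1 ^ ⌈t 0 * (p ^ e : ℕ)⌉₊ * cu k p 1 0 ^ ⌈t 1 * (p ^ e : ℕ)⌉₊ ∈ frobPower J (p ^ e)) :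
    mixedTestIdeal p ![Ideal.span {cu k p 0 1}, Ideal.span {cu k p 1 0}] t ⊆ J := fun _ hf => by
  obtain ⟨e, he⟩ := mem_cu.1 hf
  exact (sInf_le ((Ideal.span_singleton_le_iff_mem _).2 (h e)) : frobRoot _ _ ≤ _) he

theorem tr_root {e : ℕ} (hq : 0 < p ^ e) {l : k →+ k} (hl : ∀ c d : k, l (c ^ p ^ e * d) = c * l d)
    {F G : MvPolynomial (Fin 2) k} (h : F ∣ G) :
    tr (p ^ e) hq l G ∈ frobRoot (Ideal.span {F}) (p ^ e) :=
  Submodule.mem_sInf.2 fun J hJ => tr_mem p e hq l hl J _ (hJ (Ideal.mem_span_singleton.2 h))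

theorem tr_miss {q : ℕ} (hq : 0 < q) (l : k →+ k) {i j : Fin 2} (hij : i ≠ j) {u : ℕ} (v : ℕ)
    (h : ¬q ∣ u + 1) : tr q hq l (X i ^ u * X j ^ v : MvPolynomial (Fin 2) k) = 0 := by
  ext w
  rw [coeff_tr, X_pow_eq_monomial, X_pow_eq_monomial, monomial_mul, coeff_monomial, if_neg,
    map_zero, coeff_zero]
  intro e
  have := DFunLike.congr_fun e i
  simp only [Finsupp.coe_add, Pi.add_apply, Finsupp.single_eq_same, Finsupp.single_eq_of_ne hij,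
    Finsupp.coe_smul, Pi.smul_apply, smul_eq_mul, cst_apply] at this
  exact h ⟨w i + 1, by rw [mul_add]; omega⟩

theorem tr_hit {q : ℕ} (hq : 0 < q) {l : k →+ k} (hl : l 1 = 1) {i j : Fin 2} (hij : i ≠ j) :
    tr q hq l (X i ^ (q - 1) * X j ^ (q - 1) : MvPolynomial (Fin 2) k) = 1 := by
  have e : Finsupp.single i (q - 1) + Finsupp.single j (q - 1) =
      q • (0 : Fin 2 →₀ ℕ) + cst (Fin 2) (q - 1) := by
    ext n
    fin_cases i <;> fin_cases j <;> fin_cases n <;> simp_all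
  rw [X_pow_eq_monomial, X_pow_eq_monomial, monomial_mul, one_mul, e]
  exact tr_monomial (σ := Fin 2) q hq l hl 0

theorem wing {i j : Fin 2} (hij : i ≠ j) {F : MvPolynomial (Fin 2) k}
    (hF : F ∣ cu k p i j ^ p ^ 2 * (cu k p i j * cu k p j i)) :
    (MI k fun u v => 1 ≤ u + v) ≤ frobRoot (Ideal.span {F}) (p ^ 3) := by
  have hp := (Fact.out : p.Prime).two_le
  have hq : 0 < p ^ 3 := by positivity
  obtain ⟨l, hl1, hl⟩ := exists_root p k 3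
  obtain ⟨s, hs⟩ : ∃ s, p ^ 3 = s + p ^ 2 + p + 1 := ⟨p ^ 3 - (p ^ 2 + p + 1), by
    have : p ^ 2 + p + 1 ≤ p ^ 3 := by nlinarith
    omega⟩
  have h0 : 0 < p ^ 2 := by positivity
  have nd : ∀ n, n ≠ 0 → n < 2 * p ^ 3 → n ≠ p ^ 3 → ¬p ^ 3 ∣ n := by
    rintro _ h1 h2 h3 ⟨c, rfl⟩
    rcases c with _ | _ | c
    · simp at h1
    · simp at h3
    · nlinarith
  have K : ∀ b, tr (p ^ 3) hq l (X i ^ (s + p ^ 2) * X j ^ b * (cu k p i j * cu k p j i)) =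
      tr (p ^ 3) hq l (X j ^ (b + p) * X i ^ (p ^ 3 - 1)) := fun b => by
    rw [show X i ^ (s + p ^ 2) * X j ^ b * (cu k p i j * cu k p j i) =
      X j ^ (b + p) * X i ^ (s + p ^ 2 + p) + X i ^ (s + p ^ 2 + 2 * p + 1) * X j ^ b +
        X i ^ (s + p ^ 2) * X j ^ (b + 2 * p + 1) + X i ^ (s + p ^ 2 + p + 1) * X j ^ (b + p + 1) by
      simp only [cu]; ring, tr_add, tr_add, tr_add, tr_miss hq l hij _ (nd _ _ _ _),
      tr_miss hq l hij _ (nd _ _ _ _), tr_miss hq l hij _ (nd _ _ _ _),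
      show s + p ^ 2 + p = p ^ 3 - 1 by omega]
    · simp
    all_goals omega
  have W : ∀ b, X i * tr (p ^ 3) hq l (X j ^ (b + p) * X i ^ (p ^ 3 - 1)) +
      X j * tr (p ^ 3) hq l (X j ^ (b + p ^ 2 + p) * X i ^ (p ^ 3 - 1)) ∈
        frobRoot (Ideal.span {F}) (p ^ 3) := fun b => by
    rw [← K, ← K, ← tr_pow_mul p 3 hq l hl, ← tr_pow_mul p 3 hq l hl, ← tr_add]
    refine tr_root hq hl (hF.trans ⟨X i ^ (s + p ^ 2) * X j ^ b, ?_⟩)
    rw [cu_pow]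
    ring
  have hi := W (s + p ^ 2)
  have hj := W s
  rw [show s + p ^ 2 + p = p ^ 3 - 1 by omega, tr_hit hq hl1 hij.symm,
    tr_miss hq l hij.symm _ (nd _ (by omega) (by omega) (by omega))] at hi hj
  simp only [mul_one, mul_zero, add_zero, zero_add] at hi hj
  have h2 : ∀ n : Fin 2, X n ∈ frobRoot (Ideal.span {F}) (p ^ 3) := fun n => by
    obtain rfl | rfl : n = i ∨ n = j := by omega
    exacts [hi, hj]
  refine MI_le fun u v h => ?_
  rcases Nat.eq_zero_or_pos u with rfl | h1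
  · exact Ideal.mul_mem_left _ _ (Ideal.pow_mem_of_mem _ (h2 1) _ (by omega))
  · exact Ideal.mul_mem_right _ _ (Ideal.pow_mem_of_mem _ (h2 0) _ h1)

theorem ceil_box {x : ℝ} {n : ℕ} (h : x ≤ (n : ℝ) / p ^ 3) : ⌈x * (p ^ 3 : ℕ)⌉₊ ≤ n :=
  Nat.ceil_le.2 (by
    have := (Fact.out : p.Prime).pos
    rw [le_div_iff₀ (by positivity)] at h
    exact_mod_cast h)

theorem cu_boxA (h1 : 1 / (p : ℝ) ≤ t 0) (h2 : t 0 ≤ (p ^ 2 + 1 : ℕ) / p ^ 3)
    (h3 : t 1 ≤ (1 : ℕ) / p ^ 3) :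
    mixedTestIdeal p ![Ideal.span {cu k p 0 1}, Ideal.span {cu k p 1 0}] t =
      MI k fun u v => 1 ≤ u + v :=
  (cu_le fun e => Ideal.mul_mem_right _ _ (cu_frob 0 1 h1 e)).antisymm fun _ hf =>
    mem_cu.2 ⟨3, wing zero_ne_one ((mul_dvd_mul (pow_dvd_pow _ (ceil_box h2))
      (pow_dvd_pow _ (ceil_box h3))).trans (dvd_of_eq (by ring))) hf⟩

theorem cu_boxB (h1 : 1 / (p : ℝ) ≤ t 1) (h2 : t 1 ≤ (p ^ 2 + 1 : ℕ) / p ^ 3)
    (h3 : t 0 ≤ (1 : ℕ) / p ^ 3) :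
    mixedTestIdeal p ![Ideal.span {cu k p 0 1}, Ideal.span {cu k p 1 0}] t =
      MI k fun u v => 1 ≤ u + v :=
  (cu_le fun e => Ideal.mul_mem_left _ _ (cu_frob 1 0 h1 e)).antisymm fun _ hf =>
    mem_cu.2 ⟨3, wing one_ne_zero ((mul_dvd_mul (pow_dvd_pow _ (ceil_box h3))
      (pow_dvd_pow _ (ceil_box h2))).trans (dvd_of_eq (by ring))) hf⟩

theorem cu_high (h1 : 1 / (p : ℝ) ≤ t 0) (h2 : 1 / (p : ℝ) ≤ t 1) :
    mixedTestIdeal p ![Ideal.span {cu k p 0 1}, Ideal.span {cu k p 1 0}] t ≠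
      MI k fun u v => 1 ≤ u + v := fun h => by
  have h3 := cu_le (fun e => frob_mul _ _ _ (Ideal.mul_mem_mul (cu_frob 0 1 h1 e)
    (cu_frob 1 0 h2 e))) (h.ge (MI_mem (u := 1) (v := 0) le_rfl))
  obtain ⟨a, h4, b, h5, h6⟩ := of_MI (MI_mul (U := fun u v => 2 ≤ u + v) (by omega) h3)
  omega

theorem cu_low (h0 : ∀ i, 0 ≤ t i) (h1 : ∀ i, t i < 1 / (p : ℝ)) :
    mixedTestIdeal p ![Ideal.span {cu k p 0 1}, Ideal.span {cu k p 1 0}] t ≠
      MI k fun u v => 1 ≤ u + v := fun h => by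
  have hp : (1 : ℝ) < p := by exact_mod_cast (Fact.out : p.Prime).one_lt
  obtain ⟨e, he⟩ := pow_unbounded_of_one_lt (p / (1 - p * max (t 0) (t 1))) hp
  have h2 : ∀ i, p * ⌈t i * (p ^ e : ℕ)⌉₊ ≤ p ^ e - 1 := fun i => by
    have a1 := mul_lt_mul_of_pos_left (Nat.ceil_lt_add_one (a := t i * (p ^ e : ℕ))
      (mul_nonneg (h0 i) (Nat.cast_nonneg _))) (one_pos.trans hp)
    have a2 := (lt_div_iff₀ (one_pos.trans hp)).1 (max_lt (h1 0) (h1 1))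
    have a3 : t i ≤ max (t 0) (t 1) := by fin_cases i <;> simp
    rw [div_lt_iff₀ (by linarith)] at he
    have a4 := mul_le_mul_of_nonneg_left a3 (show (0 : ℝ) ≤ p * p ^ e by positivity)
    refine Nat.le_sub_one_of_lt (Nat.cast_lt (α := ℝ).1 ?_)
    push_cast at a1 ⊢
    nlinarith
  have hq : 0 < p ^ e := pow_pos (Fact.out : p.Prime).pos e
  obtain ⟨l, hl1, hl⟩ := exists_root p k e
  have a0 : Lead (cu k p 0 1) p 0 := by
    simpa [Lead, cu] using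
      MI_mem (k := k) (S := fun a b => p < a + b) (u := 0) (v := p + 1) (by omega)
  have a1 : Lead (cu k p 1 0) 0 p := by
    simpa [Lead, cu] using
      MI_mem (k := k) (S := fun a b => p < a + b) (u := p + 1) (v := 0) (by omega)
  obtain ⟨u, hu⟩ := Nat.exists_eq_add_of_le (h2 0)
  obtain ⟨v, hv⟩ := Nat.exists_eq_add_of_le (h2 1)
  have a2 := ((a0.pow ⌈t 0 * (p ^ e : ℕ)⌉₊).mul (a1.pow ⌈t 1 * (p ^ e : ℕ)⌉₊)).mul
    (show Lead (X 0 ^ u * X 1 ^ v) u v by simp [Lead])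
  rw [zero_mul, zero_mul, add_zero, zero_add, ← hu, ← hv] at a2
  obtain ⟨a, h3, b, h4, h5⟩ := coeff_MI (w := 0)
    (h.le (mem_cu.2 ⟨e, tr_root hq hl (dvd_mul_right _ (X 0 ^ u * X 1 ^ v))⟩)) fun h3 => by
      rw [← sub_add_cancel (_ * _) (X 0 ^ (p ^ e - 1) * X 1 ^ (p ^ e - 1)), tr_add,
        tr_hit hq hl1 zero_ne_one, coeff_add, coeff_tr] at h3
      obtain ⟨a, h4, b, h5, h6⟩ := coeff_MI (w := p ^ e • 0 + cst _ (p ^ e - 1)) a2 fun h4 => by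
        rw [h4, map_zero] at h3
        simp at h3
      simp at h4 h5
      omega
  simp at h3 h4
  omega

end Pool.Agent.Lib.MP_e15572_ag
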