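import Mathlib

/-!
Definitions for mixed test ideals (Blickle-Mustata-Smith formula) and their constancy regions.
-/

namespace Pool.Agent.Lib.MP_e15572_ag

/-- The Frobenius power `J^[q]`: the ideal generated by the `q`-th powers of the elements of `J`. -/
def frobPower {R : Type*} [CommRing R] (J : Ideal R) (q : ℕ) : Ideal R :=
  Ideal.span ((fun f => f ^ q) '' (J : Set R))

/-- The Frobenius root `b^[1/q]`: the smallest ideal `J` with `b ⊆ J^[q]`, written as the
intersection of all such `J`. -/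
def frobRoot {R : Type*} [CommRing R] (b : Ideal R) (q : ℕ) : Ideal R :=
  sInf {J : Ideal R | b ≤ frobPower J q}

/-- The mixed test ideal `τ(a^t)`: the union over `e ≥ 0` of
`(a_1^⌈t_1 p^e⌉ ⋯ a_n^⌈t_n p^e⌉)^[1/p^e]`, as a subset of `R`. -/
def mixedTestIdeal {R : Type*} [CommRing R] (p : ℕ) {n : ℕ} (a : Fin n → Ideal R)
    (t : EuclideanSpace ℝ (Fin n)) : Set R :=
  ⋃ e : ℕ, (frobRoot (∏ i, a i ^ ⌈t i * (p : ℝ) ^ e⌉₊) (p ^ e) : Set R)

/-- The constancy region of `τ(a^c)`: all `c'` with nonnegative coordinates and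
`τ(a^c') = τ(a^c)`. -/
def constancyRegion {R : Type*} [CommRing R] (p : ℕ) {n : ℕ} (a : Fin n → Ideal R)
    (c : EuclideanSpace ℝ (Fin n)) : Set (EuclideanSpace ℝ (Fin n)) :=
  {c' | (∀ i, 0 ≤ c' i) ∧ mixedTestIdeal p a c' = mixedTestIdeal p a c}

end Pool.Agent.Lib.MP_e15572_ag
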