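import Pool.Agent.Lib.MP_e15572_ag.Trace

/-!
Computation of three mixed test ideals for `a_1 = z (x^2, y^3)` and `a_2 = z (x^3, y^2)`.
-/

namespace Pool.Agent.Lib.MP_e15572_ag

open MvPolynomial

theorem sup_pow_le {R : Type*} [CommRing R] (I J K : Ideal R) (n m N : ℕ) (hI : I ^ n ≤ K)
    (hJ : J ^ m ≤ K) (h : n + m ≤ N + 1) : (I ⊔ J) ^ N ≤ K := by
  rw [← Ideal.add_eq_sup, add_pow, Ideal.sum_eq_sup]
  apply Finset.sup_le
  intro i hi
  by_cases hn : n ≤ i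
  · exact (Ideal.mul_le_left.trans (Ideal.mul_le_left.trans
      ((Ideal.pow_le_pow_right hn).trans hI)))
  · refine (Ideal.mul_le_left.trans (Ideal.mul_le_right.trans
      ((Ideal.pow_le_pow_right ?_).trans hJ)))
    omega

theorem frobRoot_le {R : Type*} [CommRing R] (b J : Ideal R) (q : ℕ) (h : b ≤ frobPower J q) :
    frobRoot b q ≤ J := sInf_le h

theorem pow_mem_frobPower {R : Type*} [CommRing R] (J : Ideal R) (q : ℕ) (f : R) (hf : f ∈ J) :
    f ^ q ∈ frobPower J q := Ideal.subset_span ⟨f, hf, rfl⟩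

variable {k : Type*} [Field k]

/-- The ideal `z (x_i^2, x_j^3)`. -/
noncomputable def A (k : Type*) [Field k] (i j : Fin 3) : Ideal (MvPolynomial (Fin 3) k) :=
  Ideal.span {X 2 * X i ^ 2, X 2 * X j ^ 3}

theorem mono_mem (i j : Fin 3) (a b : ℕ) :
    monomial (Finsupp.single 2 (a + b) + Finsupp.single i (2 * a) + Finsupp.single j (3 * b))
      (1 : k) ∈ A k i j ^ (a + b) := by
  have h1 : (X 2 * X i ^ 2 : MvPolynomial (Fin 3) k) ∈ A k i j :=
    Ideal.subset_span (by simp)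
  have h2 : (X 2 * X j ^ 3 : MvPolynomial (Fin 3) k) ∈ A k i j :=
    Ideal.subset_span (by simp)
  have h3 := Ideal.mul_mem_mul (Ideal.pow_mem_pow h1 a) (Ideal.pow_mem_pow h2 b)
  rw [← pow_add] at h3
  convert h3 using 1
  rw [monomial_add_single, monomial_add_single, ← X_pow_eq_monomial]
  ring

theorem A_pow_le (i j : Fin 3) (q m : ℕ) (h : 5 * q ≤ 6 * m) :
    A k i j ^ m ≤ frobPower (Ideal.span {X i, X j}) q := by
  unfold A
  rw [Ideal.span_insert]
  refine sup_pow_le _ _ _ ((q + 1) / 2) ((q + 2) / 3) m ?_ ?_ (by omega)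
  · rw [Ideal.span_singleton_pow, Ideal.span_singleton_le_iff_mem]
    have h1 : (X i : MvPolynomial (Fin 3) k) ^ q ∈ frobPower (Ideal.span {X i, X j}) q :=
      pow_mem_frobPower _ _ _ (Ideal.subset_span (by simp))
    obtain ⟨r, hr⟩ : ∃ r, 2 * ((q + 1) / 2) = q + r := ⟨2 * ((q + 1) / 2) - q, by omega⟩
    rw [mul_pow, ← pow_mul, hr, pow_add]
    exact Ideal.mul_mem_left _ _ (Ideal.mul_mem_right _ _ h1)
  · rw [Ideal.span_singleton_pow, Ideal.span_singleton_le_iff_mem]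
    have h1 : (X j : MvPolynomial (Fin 3) k) ^ q ∈ frobPower (Ideal.span {X i, X j}) q :=
      pow_mem_frobPower _ _ _ (Ideal.subset_span (by simp))
    obtain ⟨r, hr⟩ : ∃ r, 3 * ((q + 2) / 3) = q + r := ⟨3 * ((q + 2) / 3) - q, by omega⟩
    rw [mul_pow, ← pow_mul, hr, pow_add]
    exact Ideal.mul_mem_left _ _ (Ideal.mul_mem_right _ _ h1)

theorem A_le (i j : Fin 3) : A k i j ≤ Ideal.span {X 2} := by
  unfold A
  rw [Ideal.span_le]
  intro f hf
  rcases hf with rfl | rfl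
  · exact Ideal.mul_mem_right _ _ (Ideal.mem_span_singleton_self _)
  · exact Ideal.mul_mem_right _ _ (Ideal.mem_span_singleton_self _)

/-- The test ideal of `z (x_i^2, x_j^3)` at exponent `5/6` is `(x_i, x_j)`. -/
theorem tau_A (p : ℕ) [Fact p.Prime] [CharP k p] (i j : Fin 3) (hi : i ≠ 2) (hj : j ≠ 2)
    (hij : i ≠ j) :
    (⋃ e : ℕ, (frobRoot (A k i j ^ ⌈(5 / 6 : ℝ) * (p : ℝ) ^ e⌉₊) (p ^ e) :
      Set (MvPolynomial (Fin 3) k))) =
      (Ideal.span {X i, X j} : Ideal (MvPolynomial (Fin 3) k)) := by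
  apply Set.Subset.antisymm
  · refine Set.iUnion_subset fun e => ?_
    refine frobRoot_le _ _ _ (A_pow_le i j _ _ ?_)
    have := Nat.le_ceil ((5 / 6 : ℝ) * (p : ℝ) ^ e)
    have h2 : ((5 * p ^ e : ℕ) : ℝ) ≤ ((6 * ⌈(5 / 6 : ℝ) * (p : ℝ) ^ e⌉₊ : ℕ) : ℝ) := by
      push_cast
      linarith
    exact_mod_cast h2
  · refine Set.subset_iUnion_of_subset 3 ?_
    have hp : 2 ≤ p := (Fact.out : p.Prime).two_le
    have hq : 8 ≤ p ^ 3 := by
      calc 8 = 2 ^ 3 := by norm_num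
        _ ≤ p ^ 3 := Nat.pow_le_pow_left hp 3
    set m := ⌈(5 / 6 : ℝ) * (p : ℝ) ^ 3⌉₊ with hm
    have hm1 : 5 * p ^ 3 ≤ 6 * m := by
      have := Nat.le_ceil ((5 / 6 : ℝ) * (p : ℝ) ^ 3)
      have h2 : ((5 * p ^ 3 : ℕ) : ℝ) ≤ ((6 * m : ℕ) : ℝ) := by
        push_cast
        linarith
      exact_mod_cast h2
    have hm2 : 6 * m < 5 * p ^ 3 + 6 := by
      have := Nat.ceil_lt_add_one (a := (5 / 6 : ℝ) * (p : ℝ) ^ 3) (by positivity)
      have h2 : ((6 * m : ℕ) : ℝ) < ((5 * p ^ 3 + 6 : ℕ) : ℝ) := by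
        push_cast
        linarith
      exact_mod_cast h2
    refine SetLike.coe_subset_coe.2 (Ideal.span_le.2 ?_)
    intro f hf
    rcases hf with rfl | rfl
    · have h := mono_mem (k := k) i j m 0
      rw [add_zero] at h
      refine monomial_mem_frobRoot p 3 _ _ (Finsupp.single i 1) h fun l => ?_
      simp only [Finsupp.coe_add, Pi.add_apply, Finsupp.single_apply]
      split_ifs <;> omega
    · have h := mono_mem (k := k) i j ((p ^ 3 - 1) / 2) (m - (p ^ 3 - 1) / 2)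
      rw [show (p ^ 3 - 1) / 2 + (m - (p ^ 3 - 1) / 2) = m by omega] at h
      refine monomial_mem_frobRoot p 3 _ _ (Finsupp.single j 1) h fun l => ?_
      simp only [Finsupp.coe_add, Pi.add_apply, Finsupp.single_apply]
      split_ifs <;> omega

/-- On the diagonal below `1/2` the mixed test ideal contains `1`. -/
theorem one_mem_diag (p : ℕ) [Fact p.Prime] [CharP k p] (s : ℝ) (hs0 : 0 ≤ s) (hs : s < 1 / 2) :
    ∃ e : ℕ, (1 : MvPolynomial (Fin 3) k) ∈
      frobRoot (A k 0 1 ^ ⌈s * (p : ℝ) ^ e⌉₊ * A k 1 0 ^ ⌈s * (p : ℝ) ^ e⌉₊) (p ^ e) := by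
  have hp : (1 : ℝ) < p := by exact_mod_cast (Fact.out : p.Prime).one_lt
  obtain ⟨e, he⟩ := pow_unbounded_of_one_lt (2 / (1 - 2 * s)) hp
  refine ⟨e, ?_⟩
  set m := ⌈s * (p : ℝ) ^ e⌉₊ with hm
  have hm2 : 2 * m < p ^ e := by
    have := Nat.ceil_lt_add_one (a := s * (p : ℝ) ^ e) (by positivity)
    rw [div_lt_iff₀ (by linarith)] at he
    have h2 : ((2 * m : ℕ) : ℝ) < ((p ^ e : ℕ) : ℝ) := by
      push_cast
      nlinarith
    exact_mod_cast h2
  have h1 := mono_mem (k := k) 0 1 m 0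
  have h2 := mono_mem (k := k) 1 0 m 0
  rw [add_zero] at h1 h2
  have h3 := Ideal.mul_mem_mul h1 h2
  rw [monomial_mul, one_mul] at h3
  rw [MvPolynomial.one_def]
  refine monomial_mem_frobRoot p e _ _ 0 h3 fun l => ?_
  fin_cases l <;> simp <;> omega

/-- On the diagonal from `1/2` on the mixed test ideal lies in `(z)`. -/
theorem diag_le (p : ℕ) (s : ℝ) (hs : 1 / 2 ≤ s) (e : ℕ) :
    frobRoot (A k 0 1 ^ ⌈s * (p : ℝ) ^ e⌉₊ * A k 1 0 ^ ⌈s * (p : ℝ) ^ e⌉₊) (p ^ e) ≤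
      Ideal.span {X 2} := by
  refine frobRoot_le _ _ _ ?_
  set m := ⌈s * (p : ℝ) ^ e⌉₊ with hm
  have hm2 : p ^ e ≤ m + m := by
    have := Nat.le_ceil (s * (p : ℝ) ^ e)
    have h0 : (0 : ℝ) ≤ (p : ℝ) ^ e := by positivity
    have h2 : ((p ^ e : ℕ) : ℝ) ≤ ((m + m : ℕ) : ℝ) := by
      push_cast
      nlinarith
    exact_mod_cast h2
  refine (Ideal.mul_mono (Ideal.pow_right_mono (A_le 0 1) m)
    (Ideal.pow_right_mono (A_le 1 0) m)).trans ?_
  rw [← pow_add]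
  refine (Ideal.pow_le_pow_right hm2).trans ?_
  rw [Ideal.span_singleton_pow, Ideal.span_singleton_le_iff_mem]
  exact pow_mem_frobPower _ _ _ (Ideal.mem_span_singleton_self _)

theorem one_notMem : (1 : MvPolynomial (Fin 3) k) ∉ Ideal.span {X 0, X 1} := by
  intro h
  obtain ⟨a, b, hab⟩ := Ideal.mem_span_pair.1 h
  have := congrArg constantCoeff hab
  simp at this

theorem X_notMem : (X 0 : MvPolynomial (Fin 3) k) ∉ Ideal.span {X 2} := by
  intro h
  obtain ⟨a, ha⟩ := Ideal.mem_span_singleton'.1 h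
  have := congrArg (eval fun i : Fin 3 => if i = 0 then (1 : k) else 0) ha
  simp at this

end Pool.Agent.Lib.MP_e15572_ag
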