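import Pool.Agent.Lib.MP_e15572_ag.Example

namespace Pool.Agent.Lib.MP_e15572_ag.OldDisconnected

open MvPolynomial Pool.Agent.Lib.MP_e15572_ag

/-- For every prime `p` and every field `k` of characteristic `p`, in `R = k[x,y,z]` with
`a_1 = (z x^2, z y^3)` and `a_2 = (z x^3, z y^2)`, the constancy region of the mixed test ideal
at the point `c = (5/6, 0)` is neither connected nor path-connected. -/
theorem result (p : ℕ) [Fact p.Prime] (k : Type) [Field k] [CharP k p] :
    let a : Fin 2 → Ideal (MvPolynomial (Fin 3) k) :=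
      ![Ideal.span {X 2 * X 0 ^ 2, X 2 * X 1 ^ 3}, Ideal.span {X 2 * X 0 ^ 3, X 2 * X 1 ^ 2}]
    let c : EuclideanSpace ℝ (Fin 2) := !₂[5 / 6, 0]
    ¬ IsPreconnected (constancyRegion p a c) ∧ ¬ IsPathConnected (constancyRegion p a c) := by
  intro a c
  have ha0 : a 0 = A k 0 1 := rfl
  have ha1 : a 1 = A k 1 0 := by
    change Ideal.span _ = Ideal.span _
    rw [Set.pair_comm]
  have hc : mixedTestIdeal p a c =
      (Ideal.span {X 0, X 1} : Ideal (MvPolynomial (Fin 3) k)) := by
    rw [← tau_A p 0 1 (by decide) (by decide) (by decide)]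
    unfold mixedTestIdeal
    simp [Fin.prod_univ_two, ha0, c]
  have hc' : mixedTestIdeal p a !₂[0, 5 / 6] =
      (Ideal.span {X 0, X 1} : Ideal (MvPolynomial (Fin 3) k)) := by
    rw [Set.pair_comm, ← tau_A p 1 0 (by decide) (by decide) (by decide)]
    unfold mixedTestIdeal
    simp [Fin.prod_univ_two, ha1]
  have hdiag : ∀ t ∈ constancyRegion p a c, t 0 ≠ t 1 := by
    rintro t ⟨ht0, ht⟩ h
    rw [hc] at ht
    unfold mixedTestIdeal at ht
    simp only [Fin.prod_univ_two, ha0, ha1, ← h] at ht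
    rcases lt_or_ge (t 0) (1 / 2) with hs | hs
    · obtain ⟨e, he⟩ := one_mem_diag (k := k) p (t 0) (ht0 0) hs
      apply one_notMem (k := k)
      rw [← SetLike.mem_coe, ← ht]
      exact Set.mem_iUnion.2 ⟨e, he⟩
    · have hx : (X 0 : MvPolynomial (Fin 3) k) ∈
          ((Ideal.span {X 0, X 1} : Ideal (MvPolynomial (Fin 3) k)) :
            Set (MvPolynomial (Fin 3) k)) :=
        Ideal.subset_span (by simp)
      rw [← ht] at hx
      obtain ⟨e, he⟩ := Set.mem_iUnion.1 hx
      exact X_notMem (diag_le p (t 0) hs e he)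
  have main : ¬ IsPreconnected (constancyRegion p a c) := by
    intro hcon
    have hcont0 : Continuous fun t : EuclideanSpace ℝ (Fin 2) => t 0 := by fun_prop
    have hcont1 : Continuous fun t : EuclideanSpace ℝ (Fin 2) => t 1 := by fun_prop
    obtain ⟨t, -, h1, h2⟩ := hcon {t | t 0 < t 1} {t | t 1 < t 0}
      (isOpen_lt hcont0 hcont1) (isOpen_lt hcont1 hcont0)
      (fun t ht => (lt_or_gt_of_ne (hdiag t ht)))
      ⟨!₂[0, 5 / 6], ⟨fun i => by fin_cases i <;> norm_num, hc'.trans hc.symm⟩, by norm_num⟩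
      ⟨c, ⟨fun i => by fin_cases i <;> norm_num [c], rfl⟩, by norm_num [c]⟩
    exact lt_asymm (show t 0 < t 1 from h1) (show t 1 < t 0 from h2)
  exact ⟨main, fun h => main h.isConnected.isPreconnected⟩

end Pool.Agent.Lib.MP_e15572_ag.OldDisconnected
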