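import Pool.Agent.Lib.MP_e15572_ag.Trace

/-!
Mixed test ideals of `a_1 = (x^9, x^2 y, y^4)` and `a_2 = (x^2, y)` in two variables.
-/

set_option autoImplicit false

namespace Pool.Agent.Lib.MP_e15572_ag

open MvPolynomial

variable {k : Type} [Field k]

theorem mono_eq (u v : ℕ) : (X 0 ^ u * X 1 ^ v : MvPolynomial (Fin 2) k) =
    monomial (Finsupp.single 0 u + Finsupp.single 1 v) 1 := by
  rw [X_pow_eq_monomial, X_pow_eq_monomial, monomial_mul, one_mul]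

/-- The ideal spanned by the monomials `x^u y^v` with `S u v`. -/
noncomputable def MI (k : Type) [Field k] (S : ℕ → ℕ → Prop) : Ideal (MvPolynomial (Fin 2) k) :=
  Ideal.span {f | ∃ u v, S u v ∧ f = X 0 ^ u * X 1 ^ v}

theorem MI_mem {S : ℕ → ℕ → Prop} {u v : ℕ} (h : S u v) : X 0 ^ u * X 1 ^ v ∈ MI k S :=
  Ideal.subset_span ⟨u, v, h, rfl⟩

theorem MI_le {S : ℕ → ℕ → Prop} {I : Ideal (MvPolynomial (Fin 2) k)}
    (h : ∀ u v, S u v → X 0 ^ u * X 1 ^ v ∈ I) : MI k S ≤ I :=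
  Ideal.span_le.2 (by
    rintro _ ⟨u, v, h1, rfl⟩
    exact h u v h1)

theorem of_MI {S : ℕ → ℕ → Prop} {u v : ℕ} (h : X 0 ^ u * X 1 ^ v ∈ MI k S) :
    ∃ a ≤ u, ∃ b ≤ v, S a b := by
  classical
  have h1 := MI_le (I := Ideal.span ((fun s => monomial s (1 : k)) ''
    {w : Fin 2 →₀ ℕ | S (w 0) (w 1)})) (fun a b hab => Ideal.subset_span
      ⟨Finsupp.single 0 a + Finsupp.single 1 b, by simpa using hab, (mono_eq a b).symm⟩) h
  obtain ⟨w, h2, h3⟩ := mem_ideal_span_monomial_image.1 h1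
    (Finsupp.single 0 u + Finsupp.single 1 v) (by simp [mono_eq, support_monomial])
  exact ⟨w 0, by simpa using h3 0, w 1, by simpa using h3 1, h2⟩

theorem MI_mul {S T U : ℕ → ℕ → Prop}
    (h : ∀ u v u' v', S u v → T u' v' → U (u + u') (v + v')) : MI k S * MI k T ≤ MI k U := by
  rw [MI, MI, Ideal.span_mul_span', Ideal.span_le]
  rintro _ ⟨_, ⟨u, v, h1, rfl⟩, _, ⟨u', v', h2, rfl⟩, rfl⟩
  exact Ideal.subset_span ⟨_, _, h u v u' v' h1 h2, by ring⟩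

theorem MI_pow {I : Ideal (MvPolynomial (Fin 2) k)} (S : ℕ → ℕ → ℕ → Prop) (h0 : S 0 0 0)
    (h1 : I ≤ MI k (S 1)) (h : ∀ n u v u' v', S n u v → S 1 u' v' → S (n + 1) (u + u') (v + v'))
    (n : ℕ) : I ^ n ≤ MI k (S n) := by
  induction n with
  | zero =>
    rw [pow_zero, Ideal.one_eq_top, top_le_iff, Ideal.eq_top_iff_one]
    simpa using MI_mem (k := k) h0
  | succ n ih => exact (pow_succ I n).le.trans ((Ideal.mul_mono ih h1).trans (MI_mul (h n)))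

theorem MI_frob {S T : ℕ → ℕ → Prop} {q : ℕ}
    (h : ∀ u v, S u v → ∃ a b, T a b ∧ a * q ≤ u ∧ b * q ≤ v) :
    MI k S ≤ frobPower (MI k T) q := MI_le fun u v h1 => by
  obtain ⟨a, b, h2, h3, h4⟩ := h u v h1
  obtain ⟨c, rfl⟩ := Nat.exists_eq_add_of_le h3
  obtain ⟨d, rfl⟩ := Nat.exists_eq_add_of_le h4
  rw [show (X 0 ^ (a * q + c) * X 1 ^ (b * q + d) : MvPolynomial (Fin 2) k) =
    (X 0 ^ a * X 1 ^ b) ^ q * (X 0 ^ c * X 1 ^ d) by ring]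
  exact Ideal.mul_mem_right _ _ (Ideal.subset_span ⟨_, MI_mem h2, rfl⟩)

/-- The two ideals. -/
noncomputable def pr (k : Type) [Field k] : Fin 2 → Ideal (MvPolynomial (Fin 2) k) :=
  ![Ideal.span {X 0 ^ 9, X 0 ^ 2 * X 1, X 1 ^ 4}, Ideal.span {X 0 ^ 2, X 1}]

theorem pr_le (m n : ℕ) : pr k 0 ^ m * pr k 1 ^ n ≤ MI k fun u v =>
    8 * m + 2 * n ≤ 3 * u + 2 * v ∧ 9 * m + 2 * n ≤ u + 7 * v ∧ 4 * m + 2 * n ≤ u + 2 * v := by
  refine (Ideal.mul_mono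
    (MI_pow (fun m u v => 8 * m ≤ 3 * u + 2 * v ∧ 9 * m ≤ u + 7 * v ∧ 4 * m ≤ u + 2 * v)
      (by simp) (Ideal.span_le.2 ?_) (by omega) m)
    (MI_pow (fun n u v => 2 * n ≤ u + 2 * v) (by simp) (Ideal.span_le.2 ?_) (by omega) n)).trans
    (MI_mul (by omega))
  · rintro _ (rfl | rfl | rfl)
    · simpa using MI_mem (k := k) (u := 9) (v := 0) (by simp)
    · simpa using MI_mem (k := k) (u := 2) (v := 1) (by simp)
    · simpa using MI_mem (k := k) (u := 0) (v := 4) (by simp)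
  · rintro _ (rfl | rfl)
    · simpa using MI_mem (k := k) (u := 2) (v := 0) (by simp)
    · simpa using MI_mem (k := k) (u := 0) (v := 1) (by simp)

theorem pr_mem (i j l r s : ℕ) : X 0 ^ (9 * i + 2 * j + 2 * r) * X 1 ^ (j + 4 * l + s) ∈
    pr k 0 ^ (i + j + l) * pr k 1 ^ (r + s) := by
  rw [show (X 0 ^ (9 * i + 2 * j + 2 * r) * X 1 ^ (j + 4 * l + s) : MvPolynomial (Fin 2) k) =
    (X 0 ^ 9) ^ i * (X 0 ^ 2 * X 1) ^ j * (X 1 ^ 4) ^ l * ((X 0 ^ 2) ^ r * X 1 ^ s) by ring,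
    pow_add, pow_add, pow_add]
  refine Ideal.mul_mem_mul (Ideal.mul_mem_mul (Ideal.mul_mem_mul ?_ ?_) ?_)
    (Ideal.mul_mem_mul ?_ ?_) <;> exact Ideal.pow_mem_pow (Ideal.subset_span (by simp)) _

theorem ceil_lo {x : ℝ} (a b q : ℕ) (h : (a : ℝ) ≤ b * x) : a * q ≤ b * ⌈x * q⌉₊ := by
  have h1 := mul_le_mul_of_nonneg_left (Nat.le_ceil (x * q)) (Nat.cast_nonneg (α := ℝ) b)
  have h2 := mul_le_mul_of_nonneg_right h (Nat.cast_nonneg (α := ℝ) q)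
  exact_mod_cast (show (a * q : ℝ) ≤ b * ⌈x * q⌉₊ by linarith)

theorem ceil_hi {x : ℝ} (a b q : ℕ) (h0 : 0 ≤ x) (h : b * x ≤ a) : b * ⌈x * q⌉₊ ≤ a * q + b := by
  have h1 := mul_le_mul_of_nonneg_left (Nat.ceil_lt_add_one (a := x * q) (by positivity)).le
    (Nat.cast_nonneg (α := ℝ) b)
  have h2 := mul_le_mul_of_nonneg_right h (Nat.cast_nonneg (α := ℝ) q)
  exact_mod_cast (show (b * ⌈x * q⌉₊ : ℝ) ≤ a * q + b by linarith)

variable {p : ℕ} [Fact p.Prime] [CharP k p] {t : EuclideanSpace ℝ (Fin 2)}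

omit [Fact p.Prime] [CharP k p] in
theorem mem_tau {f : MvPolynomial (Fin 2) k} : f ∈ mixedTestIdeal p (pr k) t ↔ ∃ e : ℕ,
    f ∈ frobRoot (pr k 0 ^ ⌈t 0 * (p ^ e : ℕ)⌉₊ * pr k 1 ^ ⌈t 1 * (p ^ e : ℕ)⌉₊) (p ^ e) := by
  simp [mixedTestIdeal, Fin.prod_univ_two]

omit [Fact p.Prime] [CharP k p] in
theorem tau_le {T : ℕ → ℕ → Prop} (h : ∀ q u v : ℕ,
    8 * ⌈t 0 * q⌉₊ + 2 * ⌈t 1 * q⌉₊ ≤ 3 * u + 2 * v → 9 * ⌈t 0 * q⌉₊ + 2 * ⌈t 1 * q⌉₊ ≤ u + 7 * v →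
    4 * ⌈t 0 * q⌉₊ + 2 * ⌈t 1 * q⌉₊ ≤ u + 2 * v → ∃ a b, T a b ∧ a * q ≤ u ∧ b * q ≤ v) :
    mixedTestIdeal p (pr k) t ⊆ MI k T := fun _ hf => by
  obtain ⟨e, he⟩ := mem_tau.1 hf
  exact (sInf_le ((pr_le _ _).trans (MI_frob fun u v h1 => h _ u v h1.1 h1.2.1 h1.2.2)) :
    frobRoot _ _ ≤ _) he

theorem root_mem {e m n a b u v : ℕ} (i j l r s : ℕ) (h1 : i + j + l = m) (h2 : r + s = n)
    (h3 : 9 * i + 2 * j + 2 * r < (a + 1) * p ^ e) (h4 : j + 4 * l + s < (b + 1) * p ^ e)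
    (hu : a ≤ u) (hv : b ≤ v) :
    X 0 ^ u * X 1 ^ v ∈ frobRoot (pr k 0 ^ m * pr k 1 ^ n) (p ^ e) := by
  rw [mono_eq, ← h1, ← h2]
  refine monomial_mem_frobRoot p e _ _ _ (mono_eq (k := k) _ _ ▸ pr_mem i j l r s) fun w => ?_
  fin_cases w
  · simpa [mul_comm] using h3.trans_le (Nat.mul_le_mul_right _ (Nat.succ_le_succ hu))
  · simpa [mul_comm] using h4.trans_le (Nat.mul_le_mul_right _ (Nat.succ_le_succ hv))

theorem three_cases {q u v : ℕ} (h : 3 * q ≤ u ∨ q ≤ u ∧ q ≤ v ∨ 2 * q ≤ v) :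
    ∃ a b, 3 ≤ a + 2 * b ∧ a * q ≤ u ∧ b * q ≤ v := by
  rcases h with h | h | h
  · exact ⟨3, 0, by omega, h, by omega⟩
  · exact ⟨1, 1, by omega, by omega, by omega⟩
  · exact ⟨0, 2, by omega, by omega, h⟩

theorem le_pow_nine : 512 ≤ p ^ 9 := Nat.pow_le_pow_left (Fact.out : p.Prime).two_le 9

/-- The value on a box near the first axis. -/
theorem tau_boxA (h1 : 10 / 9 ≤ t 0) (h2 : t 0 ≤ 67 / 60) (h3 : 0 ≤ t 1) (h4 : t 1 ≤ 1 / 60) :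
    mixedTestIdeal p (pr k) t = MI k fun u v => 3 ≤ u + 2 * v := by
  have a1 := fun q => ceil_lo (x := t 0) 10 9 q (by push_cast; linarith)
  refine (tau_le fun q u v _ _ _ => three_cases (by have := a1 q; omega)).antisymm
    fun f hf => mem_tau.2 ⟨9, MI_le (fun u v h => ?_) hf⟩
  have a0 := le_pow_nine (p := p)
  have a2 := ceil_hi (x := t 0) 67 60 (p ^ 9) (by linarith) (by push_cast; linarith)
  have a3 := ceil_hi (x := t 1) 1 60 (p ^ 9) h3 (by push_cast; linarith)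
  replace a1 := a1 (p ^ 9)
  generalize ⌈t 0 * (p ^ 9 : ℕ)⌉₊ = m at a1 a2 ⊢
  generalize ⌈t 1 * (p ^ 9 : ℕ)⌉₊ = n at a3 ⊢
  obtain h | h | h : 3 ≤ u ∨ 1 ≤ u ∧ 1 ≤ v ∨ 2 ≤ v := by omega
  · exact root_mem (a := 3) (b := 0) (m - (p ^ 9 - 1)) (p ^ 9 - 1) 0 n 0 (by omega) rfl (by omega)
      (by omega) h v.zero_le
  · exact root_mem (a := 1) (b := 1) 0 (p ^ 9 - 1) (m - (p ^ 9 - 1)) 0 n (by omega) (by omega)
      (by omega) (by omega) h.1 h.2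
  · exact root_mem (a := 0) (b := 2) 0 ((p ^ 9 - 1) / 2) (m - (p ^ 9 - 1) / 2) 0 n (by omega)
      (by omega) (by omega) (by omega) u.zero_le h

/-- The value on a box near the second axis. -/
theorem tau_boxB (h1 : 0 ≤ t 0) (h2 : t 0 ≤ 1 / 8) (h3 : 5 / 2 ≤ t 1) (h4 : t 1 ≤ 21 / 8) :
    mixedTestIdeal p (pr k) t = MI k fun u v => 3 ≤ u + 2 * v := by
  have a1 := fun q => ceil_lo (x := t 1) 5 2 q (by push_cast; linarith)
  refine (tau_le fun q u v _ _ _ => three_cases (by have := a1 q; omega)).antisymm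
    fun f hf => mem_tau.2 ⟨9, MI_le (fun u v h => ?_) hf⟩
  have a0 := le_pow_nine (p := p)
  have a2 := ceil_hi (x := t 0) 1 8 (p ^ 9) h1 (by push_cast; linarith)
  have a3 := ceil_hi (x := t 1) 21 8 (p ^ 9) (by linarith) (by push_cast; linarith)
  replace a1 := a1 (p ^ 9)
  generalize ⌈t 0 * (p ^ 9 : ℕ)⌉₊ = m at a2 ⊢
  generalize ⌈t 1 * (p ^ 9 : ℕ)⌉₊ = n at a1 a3 ⊢
  obtain h | h | h : 3 ≤ u ∨ 1 ≤ u ∧ 1 ≤ v ∨ 2 ≤ v := by omega
  · exact root_mem (a := 3) (b := 0) 0 m 0 (m + n - (p ^ 9 - 1)) (p ^ 9 - 1 - m) (by omega)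
      (by omega) (by omega) (by omega) h v.zero_le
  · exact root_mem (a := 1) (b := 1) 0 m 0 (p ^ 9 - 1 - m) (n - (p ^ 9 - 1 - m)) (by omega)
      (by omega) (by omega) (by omega) h.1 h.2
  · exact root_mem (a := 0) (b := 2) 0 m 0 0 n (by omega) (by omega) (by omega) (by omega)
      u.zero_le h

/-- On the line `t_2 = 1/2` the value is never `(x^3, x y, y^2)`. -/
theorem tau_line (h0 : 0 ≤ t 0) (h1 : t 1 = 1 / 2) :
    mixedTestIdeal p (pr k) t ≠ MI k fun u v => 3 ≤ u + 2 * v := fun h => by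
  rcases lt_or_ge (t 0) 1 with h2 | h2
  · have hp : (1 : ℝ) < p := by exact_mod_cast (Fact.out : p.Prime).one_lt
    obtain ⟨e, he⟩ := pow_unbounded_of_one_lt (1 / (1 - t 0)) hp
    have a1 : ⌈t 0 * (p ^ e : ℕ)⌉₊ < p ^ e := by
      have := Nat.ceil_lt_add_one (a := t 0 * (p ^ e : ℕ)) (by positivity)
      rw [div_lt_iff₀ (by linarith)] at he
      exact_mod_cast (show (⌈t 0 * (p ^ e : ℕ)⌉₊ : ℝ) < (p ^ e : ℕ) by
        push_cast at this ⊢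
        linarith)
    have a2 : ⌈t 1 * (p ^ e : ℕ)⌉₊ ≤ (p ^ e + 1) / 2 := Nat.ceil_le.2 (by
      have : ((p ^ e : ℕ) : ℝ) ≤ (2 * ((p ^ e + 1) / 2) : ℕ) := Nat.cast_le.2 (by omega)
      rw [Nat.cast_mul, Nat.cast_two] at this
      rw [h1]
      linarith)
    obtain ⟨a, h3, b, h4, h5⟩ := of_MI (h.le (mem_tau.2 ⟨e, root_mem (a := 2) (b := 0) 0 _ 0 _ 0
      (zero_add _) (add_zero _) (by omega) (by omega) le_rfl le_rfl⟩))
    omega
  · have h3 := tau_le (p := p) (k := k) (t := t) (T := fun u v => 1 ≤ u ∨ 3 ≤ v)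
      (fun q u v h3 _ _ => by
        have a1 := ceil_lo (x := t 0) 1 1 q (by push_cast; linarith)
        have a2 := ceil_lo (x := t 1) 1 2 q (by push_cast; linarith)
        rcases le_total q u with h4 | h4
        · exact ⟨1, 0, by omega, by omega, by omega⟩
        · exact ⟨0, 3, by omega, by omega, by omega⟩)
      (h.ge (MI_mem (u := 0) (v := 2) (by omega)))
    obtain ⟨a, h4, b, h5, h6⟩ := of_MI h3
    omega

end Pool.Agent.Lib.MP_e15572_ag
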