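import Pool.Agent.Lib.MP_e15572_ag.Defs

/-!
The trace map of the Frobenius on a polynomial ring and Frobenius roots of monomials.
-/

namespace Pool.Agent.Lib.MP_e15572_ag

open MvPolynomial

theorem exists_root (p : ℕ) [Fact p.Prime] (k : Type*) [Field k] [CharP k p] (e : ℕ) :
    ∃ l : k →+ k, l 1 = 1 ∧ ∀ c d : k, l (c ^ p ^ e * d) = c * l d := by
  let F : k →+* k := iterateFrobenius k p e
  let S : Subfield k := F.fieldRange
  obtain ⟨g, hg⟩ := LinearMap.exists_leftInverse_of_injective (Algebra.linearMap S k)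
    (LinearMap.ker_eq_bot_of_injective (algebraMap S k).injective)
  refine ⟨(F.rangeRestrictFieldEquiv.symm : S →+ k).comp g.toAddMonoidHom, ?_, ?_⟩
  · have h1 : g 1 = 1 := by
      have := LinearMap.congr_fun hg 1
      simpa using this
    simp [h1]
  · intro c d
    have h1 : c ^ p ^ e * d = (F.rangeRestrictFieldEquiv c) • d := by
      rw [Subfield.smul_def, smul_eq_mul]
      rfl
    rw [h1]
    simp only [AddMonoidHom.coe_comp, Function.comp_apply, LinearMap.toAddMonoidHom_coe, map_smul,
      smul_eq_mul, AddMonoidHom.coe_coe, map_mul, RingEquiv.symm_apply_apply]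

variable {σ : Type*} [Fintype σ] {k : Type*} [Field k]

/-- The exponent vector with all entries equal to `m`. -/
noncomputable def cst (σ : Type*) [Fintype σ] (m : ℕ) : σ →₀ ℕ :=
  Finsupp.equivFunOnFinite.symm fun _ => m

@[simp] theorem cst_apply (m : ℕ) (i : σ) : cst σ m i = m := rfl

theorem shift_injective (q : ℕ) (hq : 0 < q) :
    Function.Injective fun w : σ →₀ ℕ => q • w + cst σ (q - 1) := by
  intro a b h
  ext i
  have := DFunLike.congr_fun h i
  simp only [Finsupp.coe_add, Finsupp.coe_smul, Pi.add_apply, Pi.smul_apply, smul_eq_mul,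
    cst_apply] at this
  exact Nat.eq_of_mul_eq_mul_left hq (by omega)

/-- The trace map. -/
noncomputable def tr (q : ℕ) (hq : 0 < q) (l : k →+ k) (f : MvPolynomial σ k) :
    MvPolynomial σ k :=
  AddMonoidAlgebra.ofCoeff (Finsupp.mapRange l l.map_zero
    (Finsupp.comapDomain (fun w : σ →₀ ℕ => q • w + cst σ (q - 1)) (AddMonoidAlgebra.coeff f)
      (shift_injective q hq).injOn))

theorem coeff_tr (q : ℕ) (hq : 0 < q) (l : k →+ k) (f : MvPolynomial σ k) (w : σ →₀ ℕ) :
    coeff w (tr q hq l f) = l (coeff (q • w + cst σ (q - 1)) f) := rfl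

theorem tr_add (q : ℕ) (hq : 0 < q) (l : k →+ k) (f g : MvPolynomial σ k) :
    tr q hq l (f + g) = tr q hq l f + tr q hq l g := by
  ext w
  simp [coeff_tr]

theorem tr_zero (q : ℕ) (hq : 0 < q) (l : k →+ k) :
    tr q hq l (0 : MvPolynomial σ k) = 0 := by
  ext w
  simp [coeff_tr]

theorem tr_monomial (q : ℕ) (hq : 0 < q) (l : k →+ k) (hl : l 1 = 1) (w : σ →₀ ℕ) :
    tr q hq l (monomial (q • w + cst σ (q - 1)) (1 : k)) = monomial w 1 := by
  classical
  ext v
  rw [coeff_tr, coeff_monomial, coeff_monomial]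
  by_cases h : w = v
  · simp [h, hl]
  · rw [if_neg h, if_neg (fun h' => h (shift_injective q hq h')), map_zero]

theorem tr_pow_mul (p : ℕ) [Fact p.Prime] [CharP k p] (e : ℕ) (hq : 0 < p ^ e) (l : k →+ k)
    (hl : ∀ c d : k, l (c ^ p ^ e * d) = c * l d) (g f : MvPolynomial σ k) :
    tr (p ^ e) hq l (g ^ p ^ e * f) = g * tr (p ^ e) hq l f := by
  classical
  induction g using MvPolynomial.induction_on' with
  | monomial a c =>
    ext w
    rw [coeff_tr, monomial_pow, coeff_monomial_mul', coeff_monomial_mul', coeff_tr]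
    have key : p ^ e • a ≤ p ^ e • w + cst σ (p ^ e - 1) ↔ a ≤ w := by
      constructor
      · intro h i
        have := h i
        simp only [Finsupp.coe_add, Finsupp.coe_smul, Pi.add_apply, Pi.smul_apply, smul_eq_mul,
          cst_apply] at this
        by_contra hc
        have hc' : w i + 1 ≤ a i := by omega
        have := Nat.mul_le_mul_left (p ^ e) hc'
        rw [mul_add] at this
        omega
      · intro h i
        have := Nat.mul_le_mul_left (p ^ e) (h i)
        simp only [Finsupp.coe_add, Finsupp.coe_smul, Pi.add_apply, Pi.smul_apply, smul_eq_mul,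
          cst_apply]
        omega
    by_cases h : a ≤ w
    · rw [if_pos h, if_pos (key.2 h), hl]
      congr 3
      ext i
      have := Nat.mul_le_mul_left (p ^ e) (h i)
      simp only [Finsupp.coe_add, Finsupp.coe_smul, Pi.add_apply, Pi.smul_apply, smul_eq_mul,
          cst_apply, Finsupp.coe_tsub, Pi.sub_apply, Nat.mul_sub]
      omega
    · rw [if_neg h, if_neg (fun h' => h (key.1 h')), map_zero]
  | add g1 g2 h1 h2 =>
    rw [add_pow_char_pow, add_mul, tr_add, h1, h2, add_mul]

theorem tr_mem (p : ℕ) [Fact p.Prime] [CharP k p] (e : ℕ) (hq : 0 < p ^ e) (l : k →+ k)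
    (hl : ∀ c d : k, l (c ^ p ^ e * d) = c * l d) (J : Ideal (MvPolynomial σ k))
    (f : MvPolynomial σ k) (hf : f ∈ frobPower J (p ^ e)) :
    tr (p ^ e) hq l f ∈ J := by
  have : ∀ g, tr (p ^ e) hq l (g * f) ∈ J := by
    unfold frobPower at hf
    induction hf using Submodule.span_induction with
    | mem x hx =>
      obtain ⟨y, hy, rfl⟩ := hx
      intro g
      rw [mul_comm, tr_pow_mul p e hq l hl]
      exact J.mul_mem_right _ hy
    | zero => intro g; rw [mul_zero, tr_zero]; exact J.zero_mem
    | add x y _ _ hx hy => intro g; rw [mul_add, tr_add]; exact J.add_mem (hx g) (hy g)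
    | smul a x _ hx => intro g; rw [smul_eq_mul, ← mul_assoc]; exact hx _
  simpa using this 1

/-- If the monomial with exponent `u` lies in `b` and `u < q (w + 1)` coordinatewise, then the
monomial with exponent `w` lies in the Frobenius root of `b`. -/
theorem monomial_mem_frobRoot (p : ℕ) [Fact p.Prime] [CharP k p] (e : ℕ)
    (b : Ideal (MvPolynomial σ k)) (u w : σ →₀ ℕ) (hu : monomial u (1 : k) ∈ b)
    (h : ∀ i, u i < p ^ e * (w i + 1)) : monomial w (1 : k) ∈ frobRoot b (p ^ e) := by
  have hq : 0 < p ^ e := pow_pos (Fact.out : p.Prime).pos e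
  obtain ⟨l, hl1, hl⟩ := exists_root p k e
  unfold frobRoot
  rw [Submodule.mem_sInf]
  intro J hJ
  have hle : u ≤ p ^ e • w + cst σ (p ^ e - 1) := by
    intro i
    have := h i
    simp only [Finsupp.coe_add, Finsupp.coe_smul, Pi.add_apply, Pi.smul_apply, smul_eq_mul,
      cst_apply]
    rw [mul_add] at this
    omega
  have hm : monomial (p ^ e • w + cst σ (p ^ e - 1)) (1 : k) ∈ b := by
    have : monomial (p ^ e • w + cst σ (p ^ e - 1)) (1 : k)
        = monomial u 1 * monomial (p ^ e • w + cst σ (p ^ e - 1) - u) 1 := by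
      rw [monomial_mul, add_tsub_cancel_of_le hle, one_mul]
    rw [this]
    exact b.mul_mem_right _ hu
  have := tr_mem p e hq l hl J _ (hJ hm)
  rwa [tr_monomial _ _ _ hl1] at this

end Pool.Agent.Lib.MP_e15572_ag
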